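import Mathlib

/-!
# The Hardy-Littlewood maximal theorem

Uncentred maximal function over balls in a finite-dimensional normed space with a Haar measure:
it is lower semicontinuous, of weak type `(1, 1)`, and bounded on `L^2`.
-/

set_option autoImplicit false

namespace Pool.Agent.H68.RG

open MeasureTheory Set Metric Module
open scoped ENNReal NNReal

section

variable {E : Type*} [NormedAddCommGroup E] [MeasurableSpace E]

/-- the uncentred maximal function -/
noncomputable def Mx (μ : Measure E) (f : E → ℝ≥0∞) (x : E) : ℝ≥0∞ :=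
  ⨆ (c : E) (r : ℝ) (_ : x ∈ ball c r), (μ (ball c r))⁻¹ * ∫⁻ y in ball c r, f y ∂μ

theorem le_Mx (μ : Measure E) (f : E → ℝ≥0∞) {x c : E} {r : ℝ} (h : x ∈ ball c r) :
    (μ (ball c r))⁻¹ * ∫⁻ y in ball c r, f y ∂μ ≤ Mx μ f x :=
  le_iSup_of_le c (le_iSup_of_le r (le_iSup_of_le h le_rfl))

theorem Mx_mono (μ : Measure E) {f g : E → ℝ≥0∞} (h : ∀ x, f x ≤ g x) (x : E) :
    Mx μ f x ≤ Mx μ g x :=
  iSup_mono fun _ => iSup_mono fun _ => iSup_mono fun _ =>
    mul_le_mul' le_rfl (lintegral_mono h)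

theorem isOpen_Mx (μ : Measure E) (f : E → ℝ≥0∞) (a : ℝ≥0∞) : IsOpen {x | a < Mx μ f x} := by
  have h1 : {x | a < Mx μ f x} = ⋃ (p : E × ℝ)
      (_ : a < (μ (ball p.1 p.2))⁻¹ * ∫⁻ y in ball p.1 p.2, f y ∂μ), ball p.1 p.2 := by
    ext x
    simp only [Mx, Set.mem_ofPred_eq, lt_iSup_iff, Set.mem_iUnion]
    constructor
    · rintro ⟨c, r, h2, h3⟩
      exact ⟨(c, r), h3, h2⟩
    · rintro ⟨⟨c, r⟩, h3, h2⟩
      exact ⟨c, r, h2, h3⟩
  rw [h1]
  exact isOpen_iUnion fun p => isOpen_iUnion fun _ => isOpen_ball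

theorem measurable_Mx [BorelSpace E] (μ : Measure E) (f : E → ℝ≥0∞) : Measurable (Mx μ f) :=
  measurable_of_Ioi fun a => (isOpen_Mx μ f a).measurableSet

variable [NormedSpace ℝ E] [FiniteDimensional ℝ E] [BorelSpace E] (μ : Measure E) [μ.IsAddHaarMeasure]

private theorem ball4 (c : E) (r : ℝ) :
    μ (ball c (4 * r)) ≤ ENNReal.ofReal (4 ^ finrank ℝ E) * μ (ball c r) := by
  rcases le_or_gt 0 r with h | h
  · rw [Measure.addHaar_ball_mul_of_pos μ c (by norm_num : (0 : ℝ) < 4) r,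
      Measure.addHaar_ball_center μ c]
  · rw [ball_eq_empty.mpr (by linarith)]
    simp

/-- the Vitali argument with bounded radii -/
private theorem weak_k (f : E → ℝ≥0∞) (a : ℝ≥0∞) (k : ℕ) :
    a * μ (⋃ (p : E × ℝ) (_ : p ∈ {p : E × ℝ | 0 < p.2 ∧ p.2 ≤ k ∧
      a * μ (ball p.1 p.2) ≤ ∫⁻ y in ball p.1 p.2, f y ∂μ}), ball p.1 p.2) ≤
      ENNReal.ofReal (4 ^ finrank ℝ E) * ∫⁻ x, f x ∂μ := by
  obtain ⟨T, hT⟩ : ∃ T : Set (E × ℝ), T = {p : E × ℝ | 0 < p.2 ∧ p.2 ≤ k ∧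
      a * μ (ball p.1 p.2) ≤ ∫⁻ y in ball p.1 p.2, f y ∂μ} := ⟨_, rfl⟩
  rw [← hT]
  obtain ⟨u, huT, hdis, hcov⟩ := Vitali.exists_disjoint_subfamily_covering_enlargement_ball T
    (fun p => p.1) (fun p => p.2) k (fun p hp => by rw [hT] at hp; exact hp.2.1) 4 (by norm_num)
  have hcount : u.Countable := by
    refine hdis.countable_of_isOpen (fun p _ => isOpen_ball) fun p hp => ?_
    have h1 := huT hp
    rw [hT] at h1
    exact nonempty_ball.mpr h1.1
  have h1 : (⋃ (p : E × ℝ) (_ : p ∈ T), ball p.1 p.2) ⊆ ⋃ p ∈ u, ball p.1 (4 * p.2) := by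
    intro x hx
    simp only [Set.mem_iUnion] at hx ⊢
    obtain ⟨p, hp, hxp⟩ := hx
    obtain ⟨q, hq, hsub⟩ := hcov p hp
    exact ⟨q, hq, hsub hxp⟩
  calc a * μ (⋃ (p : E × ℝ) (_ : p ∈ T), ball p.1 p.2)
      ≤ a * ∑' p : u, μ (ball p.1.1 (4 * p.1.2)) :=
        mul_le_mul' le_rfl ((measure_mono h1).trans (measure_biUnion_le μ hcount _))
    _ ≤ a * ∑' p : u, ENNReal.ofReal (4 ^ finrank ℝ E) * μ (ball p.1.1 p.1.2) :=
        mul_le_mul' le_rfl (ENNReal.tsum_le_tsum fun p => ball4 μ _ _)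
    _ = ENNReal.ofReal (4 ^ finrank ℝ E) * ∑' p : u, a * μ (ball p.1.1 p.1.2) := by
        rw [ENNReal.tsum_mul_left, ENNReal.tsum_mul_left]
        ring
    _ ≤ ENNReal.ofReal (4 ^ finrank ℝ E) * ∑' p : u, ∫⁻ y in ball p.1.1 p.1.2, f y ∂μ := by
        refine mul_le_mul' le_rfl (ENNReal.tsum_le_tsum fun p => ?_)
        have h2 := huT p.2
        rw [hT] at h2
        exact h2.2.2
    _ = ENNReal.ofReal (4 ^ finrank ℝ E) * ∫⁻ y in ⋃ p ∈ u, ball p.1 p.2, f y ∂μ := by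
        rw [lintegral_biUnion hcount (fun p _ => measurableSet_ball) hdis]
    _ ≤ _ := mul_le_mul' le_rfl (setLIntegral_le_lintegral _ _)

/-- weak type `(1, 1)` -/
theorem weak (f : E → ℝ≥0∞) (a : ℝ≥0∞) :
    a * μ {x | a < Mx μ f x} ≤ ENNReal.ofReal (4 ^ finrank ℝ E) * ∫⁻ x, f x ∂μ := by
  obtain ⟨S, hS⟩ : ∃ S : ℕ → Set E, ∀ k : ℕ, S k = ⋃ (p : E × ℝ) (_ : p ∈ {p : E × ℝ |
      0 < p.2 ∧ p.2 ≤ k ∧ a * μ (ball p.1 p.2) ≤ ∫⁻ y in ball p.1 p.2, f y ∂μ}),
      ball p.1 p.2 := ⟨_, fun _ => rfl⟩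
  have hmono : Monotone S := by
    intro k l hkl x hx
    rw [hS] at hx ⊢
    simp only [Set.mem_iUnion] at hx ⊢
    obtain ⟨p, hp, hxp⟩ := hx
    refine ⟨p, ⟨hp.1, hp.2.1.trans ?_, hp.2.2⟩, hxp⟩
    exact_mod_cast hkl
  have hsub : {x | a < Mx μ f x} ⊆ ⋃ k, S k := by
    intro x hx
    have hx' : a < Mx μ f x := hx
    simp only [Mx, lt_iSup_iff] at hx'
    obtain ⟨c, r, h2, h3⟩ := hx'
    have hr : 0 < r := (dist_nonneg).trans_lt (mem_ball.mp h2)
    obtain ⟨k, hk⟩ := exists_nat_ge r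
    rw [Set.mem_iUnion]
    refine ⟨k, ?_⟩
    rw [hS]
    simp only [Set.mem_iUnion]
    refine ⟨(c, r), ⟨hr, hk, ?_⟩, h2⟩
    have h4 : μ (ball c r) ≠ 0 := (measure_ball_pos μ c hr).ne'
    have h5 : μ (ball c r) ≠ ⊤ := measure_ball_lt_top.ne
    calc a * μ (ball c r) ≤ ((μ (ball c r))⁻¹ * ∫⁻ y in ball c r, f y ∂μ) * μ (ball c r) :=
          mul_le_mul' h3.le le_rfl
      _ = (μ (ball c r))⁻¹ * μ (ball c r) * ∫⁻ y in ball c r, f y ∂μ := by ring
      _ = _ := by rw [ENNReal.inv_mul_cancel h4 h5, one_mul]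
  calc a * μ {x | a < Mx μ f x} ≤ a * μ (⋃ k, S k) := mul_le_mul' le_rfl (measure_mono hsub)
    _ = ⨆ k, a * μ (S k) := by rw [hmono.measure_iUnion, ENNReal.mul_iSup]
    _ ≤ _ := iSup_le fun k => by
        rw [hS]
        exact weak_k μ f a k

/-- truncation -/
private theorem Mx_split (f : E → ℝ≥0∞) (a : ℝ≥0∞) (x : E) :
    Mx μ f x ≤ Mx μ ({y | a < f y}.indicator f) x + a := by
  refine iSup_le fun c => iSup_le fun r => iSup_le fun h => ?_
  have hr : 0 < r := (dist_nonneg).trans_lt (mem_ball.mp h)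
  have h4 : μ (ball c r) ≠ 0 := (measure_ball_pos μ c hr).ne'
  have h5 : μ (ball c r) ≠ ⊤ := measure_ball_lt_top.ne
  have h6 : ∀ y, f y ≤ {y | a < f y}.indicator f y + a := by
    intro y
    by_cases hy : a < f y
    · rw [Set.indicator_of_mem (show y ∈ {y | a < f y} from hy)]
      exact le_self_add
    · rw [Set.indicator_of_notMem (show y ∉ {y | a < f y} from hy), zero_add]
      exact not_lt.mp hy
  calc (μ (ball c r))⁻¹ * ∫⁻ y in ball c r, f y ∂μ
      ≤ (μ (ball c r))⁻¹ * ∫⁻ y in ball c r, ({y | a < f y}.indicator f y + a) ∂μ :=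
        mul_le_mul' le_rfl (lintegral_mono h6)
    _ = (μ (ball c r))⁻¹ * ∫⁻ y in ball c r, {y | a < f y}.indicator f y ∂μ + a := by
        rw [lintegral_add_right _ measurable_const, setLIntegral_const, mul_add]
        congr 1
        rw [mul_left_comm, ENNReal.inv_mul_cancel h4 h5, mul_one]
    _ ≤ _ := add_le_add (le_Mx μ _ h) le_rfl

private theorem layer (a : ℝ≥0∞) :
    a ^ 2 ≤ ∫⁻ t in Ioi (0 : ℝ), ENNReal.ofReal (2 * t) *
      {t : ℝ | ENNReal.ofReal t < a}.indicator 1 t := by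
  apply ENNReal.le_of_forall_nnreal_lt
  intro r hr
  obtain ⟨b, hb⟩ : ∃ b : ℝ, b = Real.sqrt r := ⟨_, rfl⟩
  have hb0 : 0 ≤ b := by rw [hb]; exact Real.sqrt_nonneg _
  have hb2 : b ^ 2 = r := by rw [hb]; exact Real.sq_sqrt r.2
  have hba : ENNReal.ofReal b < a := by
    by_contra hcon
    rw [not_lt] at hcon
    have h1 : a ^ 2 ≤ (ENNReal.ofReal b) ^ 2 := by gcongr
    rw [← ENNReal.ofReal_pow hb0, hb2, ENNReal.ofReal_coe_nnreal] at h1
    exact absurd hr (not_lt.mpr h1)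
  have h2 : (r : ℝ≥0∞) = ∫⁻ t in Ioc (0 : ℝ) b, ENNReal.ofReal (2 * t) := by
    rw [← ofReal_integral_eq_lintegral_ofReal]
    · rw [← intervalIntegral.integral_of_le hb0, intervalIntegral.integral_const_mul, integral_id]
      have h3 : 2 * ((b ^ 2 - 0 ^ 2) / 2) = (r : ℝ) := by rw [hb2]; ring
      rw [h3, ENNReal.ofReal_coe_nnreal]
    · exact ((continuous_const.mul continuous_id).integrableOn_Icc (a := 0) (b := b)).mono_set
        Ioc_subset_Icc_self
    · rw [Filter.EventuallyLE, ae_restrict_iff' measurableSet_Ioc]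
      filter_upwards with t ht
      have := ht.1
      show (0 : ℝ) ≤ 2 * t
      linarith
  rw [h2]
  calc ∫⁻ t in Ioc (0 : ℝ) b, ENNReal.ofReal (2 * t)
      = ∫⁻ t in Ioc (0 : ℝ) b, ENNReal.ofReal (2 * t) *
        {t : ℝ | ENNReal.ofReal t < a}.indicator 1 t := by
        apply setLIntegral_congr_fun measurableSet_Ioc
        intro t ht
        have h3 : t ∈ {t : ℝ | ENNReal.ofReal t < a} :=
          (ENNReal.ofReal_le_ofReal ht.2).trans_lt hba
        show ENNReal.ofReal (2 * t) = ENNReal.ofReal (2 * t) *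
          {t : ℝ | ENNReal.ofReal t < a}.indicator 1 t
        rw [Set.indicator_of_mem h3, Pi.one_apply, mul_one]
    _ ≤ _ := lintegral_mono_set fun t ht => ht.1

private theorem layer2 (a : ℝ≥0∞) :
    ∫⁻ t in Ioi (0 : ℝ), {t : ℝ | ENNReal.ofReal t / 2 < a}.indicator 1 t ≤ 2 * a := by
  by_cases ha : a = ⊤
  · rw [ha, ENNReal.mul_top (by norm_num)]
    exact le_top
  · have hm : MeasurableSet {t : ℝ | ENNReal.ofReal t / 2 < a} :=
      measurableSet_lt (ENNReal.measurable_ofReal.div_const 2) measurable_const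
    rw [lintegral_indicator_one hm, Measure.restrict_apply hm]
    have h1 : {t : ℝ | ENNReal.ofReal t / 2 < a} ∩ Ioi 0 ⊆ Ioo 0 (2 * a.toReal) := by
      rintro t ⟨h2, h3⟩
      refine ⟨h3, ?_⟩
      have h4 : ENNReal.ofReal t / 2 < a := h2
      rw [ENNReal.div_lt_iff (Or.inl (by norm_num)) (Or.inl (by norm_num))] at h4
      have h5 := ENNReal.toReal_strict_mono (ENNReal.mul_ne_top ha (by norm_num)) h4
      rw [ENNReal.toReal_ofReal (le_of_lt h3), ENNReal.toReal_mul] at h5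
      have h6 : (2 : ℝ≥0∞).toReal = 2 := by norm_num
      rw [h6] at h5
      linarith
    refine (measure_mono h1).trans ?_
    rw [Real.volume_Ioo, sub_zero, ENNReal.ofReal_mul (by norm_num), ENNReal.ofReal_toReal ha]
    simp

/-- the maximal function is bounded on `L^2` -/
theorem strong (f : E → ℝ≥0∞) (hf : Measurable f) :
    ∫⁻ x, Mx μ f x ^ 2 ∂μ ≤ 8 * ENNReal.ofReal (4 ^ finrank ℝ E) * ∫⁻ x, f x ^ 2 ∂μ := by
  obtain ⟨C, hC⟩ : ∃ C, C = ENNReal.ofReal (4 ^ finrank ℝ E) := ⟨_, rfl⟩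
  rw [← hC]
  have hM := measurable_Mx μ f
  -- measurability
  have hm1 : Measurable fun p : E × ℝ => ENNReal.ofReal (2 * p.2) *
      {t : ℝ | ENNReal.ofReal t < Mx μ f p.1}.indicator 1 p.2 := by
    refine Measurable.mul (by fun_prop) ?_
    have h1 : (fun p : E × ℝ => ({t : ℝ | ENNReal.ofReal t < Mx μ f p.1}.indicator 1 p.2 : ℝ≥0∞)) =
        {p : E × ℝ | ENNReal.ofReal p.2 < Mx μ f p.1}.indicator 1 := by
      funext p
      rfl
    rw [h1]
    exact measurable_one.indicator (measurableSet_lt (by fun_prop) (hM.comp measurable_fst))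
  have hm2 : Measurable fun p : E × ℝ => f p.1 *
      {t : ℝ | ENNReal.ofReal t / 2 < f p.1}.indicator 1 p.2 := by
    refine Measurable.mul (hf.comp measurable_fst) ?_
    have h1 : (fun p : E × ℝ => ({t : ℝ | ENNReal.ofReal t / 2 < f p.1}.indicator 1 p.2 : ℝ≥0∞)) =
        {p : E × ℝ | ENNReal.ofReal p.2 / 2 < f p.1}.indicator 1 := by
      funext p
      rfl
    rw [h1]
    exact measurable_one.indicator (measurableSet_lt
      ((ENNReal.measurable_ofReal.comp measurable_snd).div_const 2) (hf.comp measurable_fst))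
  -- one level
  have hlev : ∀ t : ℝ, 0 < t → ENNReal.ofReal (2 * t) * μ {x | ENNReal.ofReal t < Mx μ f x} ≤
      4 * C * ∫⁻ x, f x * {t : ℝ | ENNReal.ofReal t / 2 < f x}.indicator 1 t ∂μ := by
    intro t ht
    obtain ⟨a, ha⟩ : ∃ a, a = ENNReal.ofReal t / 2 := ⟨_, rfl⟩
    have ha2 : ENNReal.ofReal t = a + a := by rw [ha, ENNReal.add_halves]
    have hatop : a ≠ ⊤ := by
      rw [ha]
      exact ENNReal.div_ne_top ENNReal.ofReal_ne_top (by norm_num)
    have h1 : {x | ENNReal.ofReal t < Mx μ f x} ⊆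
        {x | a < Mx μ ({y | a < f y}.indicator f) x} := by
      intro x hx
      have h2 : ENNReal.ofReal t < Mx μ f x := hx
      have h3 := h2.trans_le (Mx_split μ f a x)
      rw [ha2] at h3
      exact lt_of_add_lt_add_right h3
    have h2 : ENNReal.ofReal (2 * t) = 4 * a := by
      rw [ENNReal.ofReal_mul (by norm_num), ha2]
      simp only [ENNReal.ofReal_ofNat]
      ring
    have h3 : ∫⁻ x, {y | a < f y}.indicator f x ∂μ =
        ∫⁻ x, f x * {t : ℝ | ENNReal.ofReal t / 2 < f x}.indicator 1 t ∂μ := by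
      apply lintegral_congr
      intro x
      rw [ha]
      by_cases h4 : ENNReal.ofReal t / 2 < f x
      · rw [Set.indicator_of_mem (show x ∈ {y | ENNReal.ofReal t / 2 < f y} from h4),
          Set.indicator_of_mem (show t ∈ {t : ℝ | ENNReal.ofReal t / 2 < f x} from h4),
          Pi.one_apply, mul_one]
      · rw [Set.indicator_of_notMem (show x ∉ {y | ENNReal.ofReal t / 2 < f y} from h4),
          Set.indicator_of_notMem (show t ∉ {t : ℝ | ENNReal.ofReal t / 2 < f x} from h4),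
          mul_zero]
    calc ENNReal.ofReal (2 * t) * μ {x | ENNReal.ofReal t < Mx μ f x}
        ≤ 4 * a * μ {x | a < Mx μ ({y | a < f y}.indicator f) x} := by
          rw [h2]
          exact mul_le_mul' le_rfl (measure_mono h1)
      _ = 4 * (a * μ {x | a < Mx μ ({y | a < f y}.indicator f) x}) := by ring
      _ ≤ 4 * (C * ∫⁻ x, {y | a < f y}.indicator f x ∂μ) := by
          rw [hC]
          exact mul_le_mul' le_rfl (weak μ _ a)
      _ = _ := by rw [h3, mul_assoc]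
  calc ∫⁻ x, Mx μ f x ^ 2 ∂μ
      ≤ ∫⁻ x, (∫⁻ t in Ioi (0 : ℝ), ENNReal.ofReal (2 * t) *
        {t : ℝ | ENNReal.ofReal t < Mx μ f x}.indicator 1 t) ∂μ :=
        lintegral_mono fun x => layer (Mx μ f x)
    _ = ∫⁻ t in Ioi (0 : ℝ), (∫⁻ x, ENNReal.ofReal (2 * t) *
        {t : ℝ | ENNReal.ofReal t < Mx μ f x}.indicator 1 t ∂μ) :=
        lintegral_lintegral_swap hm1.aemeasurable
    _ = ∫⁻ t in Ioi (0 : ℝ), ENNReal.ofReal (2 * t) * μ {x | ENNReal.ofReal t < Mx μ f x} := by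
        apply lintegral_congr
        intro t
        have hms : MeasurableSet {x | ENNReal.ofReal t < Mx μ f x} :=
          measurableSet_lt measurable_const hM
        have h1 : (fun x => ENNReal.ofReal (2 * t) *
            {t : ℝ | ENNReal.ofReal t < Mx μ f x}.indicator (1 : ℝ → ℝ≥0∞) t) =
            fun x => ENNReal.ofReal (2 * t) *
              {x | ENNReal.ofReal t < Mx μ f x}.indicator (1 : E → ℝ≥0∞) x := by
          funext x
          rfl
        rw [h1, lintegral_const_mul _ (measurable_one.indicator hms), lintegral_indicator_one hms]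
    _ ≤ ∫⁻ t in Ioi (0 : ℝ), 4 * C *
        ∫⁻ x, f x * {t : ℝ | ENNReal.ofReal t / 2 < f x}.indicator 1 t ∂μ :=
        setLIntegral_mono' measurableSet_Ioi fun t ht => hlev t ht
    _ = 4 * C * ∫⁻ t in Ioi (0 : ℝ),
        ∫⁻ x, f x * {t : ℝ | ENNReal.ofReal t / 2 < f x}.indicator 1 t ∂μ := by
        rw [lintegral_const_mul']
        rw [hC]
        exact ENNReal.mul_ne_top (by norm_num) ENNReal.ofReal_ne_top
    _ = 4 * C * ∫⁻ x, (∫⁻ t in Ioi (0 : ℝ), f x *
        {t : ℝ | ENNReal.ofReal t / 2 < f x}.indicator 1 t) ∂μ := by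
        congr 1
        exact (lintegral_lintegral_swap hm2.aemeasurable).symm
    _ ≤ 4 * C * ∫⁻ x, 2 * f x ^ 2 ∂μ := by
        refine mul_le_mul' le_rfl (lintegral_mono fun x => ?_)
        have hms : Measurable fun t : ℝ =>
            ({t : ℝ | ENNReal.ofReal t / 2 < f x}.indicator 1 t : ℝ≥0∞) :=
          measurable_one.indicator (measurableSet_lt
            (ENNReal.measurable_ofReal.div_const 2) measurable_const)
        show ∫⁻ t in Ioi (0 : ℝ), f x * {t : ℝ | ENNReal.ofReal t / 2 < f x}.indicator 1 t ≤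
          2 * f x ^ 2
        rw [lintegral_const_mul _ hms]
        calc f x * ∫⁻ t in Ioi (0 : ℝ), {t : ℝ | ENNReal.ofReal t / 2 < f x}.indicator 1 t
            ≤ f x * (2 * f x) := mul_le_mul' le_rfl (layer2 (f x))
          _ = _ := by ring
    _ = _ := by
        rw [lintegral_const_mul' _ _ (by norm_num)]
        ring

end

end Pool.Agent.H68.RG
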