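import Pool.Agent.H31.TRI.Defs

/-!
# The Gaussian kernel: mass, semigroup property, sup bounds (REG, part C, K2)
-/

set_option autoImplicit false

namespace Pool.Agent.H68.RG

open MeasureTheory Set Filter Topology Module
open Pool.Agent.H31.TRI
open scoped ContDiff

private theorem fr (n : ℕ) : (finrank ℝ (E n) : ℝ) = n := by
  rw [finrank_euclideanSpace_fin]

private theorem gauss_int (n : ℕ) (b : ℝ) (hb : 0 < b) :
    ∫ x : E n, Real.exp (-(b * ‖x‖ ^ 2)) = (Real.pi / b) ^ ((n : ℝ) / 2) := by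
  have h1 := GaussianFourier.integral_rexp_neg_mul_sq_norm (V := E n) hb
  rw [fr] at h1
  rw [← h1]
  congr 1
  funext x
  congr 1
  ring

private theorem gauss_integrable (n : ℕ) (b : ℝ) (hb : 0 < b) :
    Integrable fun x : E n => Real.exp (-(b * ‖x‖ ^ 2)) := by
  apply Integrable.of_integral_ne_zero
  rw [gauss_int n b hb]
  have : 0 < Real.pi / b := div_pos Real.pi_pos hb
  exact (Real.rpow_pos_of_pos this _).ne'

theorem K_eq {n : ℕ} (s : ℝ) (x : E n) :
    K s x = (4 * Real.pi * s) ^ (-(n : ℝ) / 2) * Real.exp (-(1 / (4 * s) * ‖x‖ ^ 2)) := by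
  unfold K
  congr 3
  ring

theorem K_pos {n : ℕ} (s : ℝ) (hs : 0 < s) (x : E n) : 0 < K s x := by
  have := Real.pi_pos
  unfold K
  positivity

theorem K_integrable {n : ℕ} (s : ℝ) (hs : 0 < s) : Integrable (K s : E n → ℝ) := by
  have h1 : (K s : E n → ℝ) =
      fun x => (4 * Real.pi * s) ^ (-(n : ℝ) / 2) * Real.exp (-(1 / (4 * s) * ‖x‖ ^ 2)) := by
    funext x
    exact K_eq s x
  rw [h1]
  exact (gauss_integrable n _ (by positivity)).const_mul _

theorem K_integral {n : ℕ} (s : ℝ) (hs : 0 < s) : ∫ x : E n, K s x = 1 := by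
  have h0 : 0 < 4 * Real.pi * s := by
    have := Real.pi_pos
    positivity
  simp only [K_eq]
  rw [integral_const_mul, gauss_int n _ (by positivity)]
  have h1 : Real.pi / (1 / (4 * s)) = 4 * Real.pi * s := by
    field_simp
  rw [h1, ← Real.rpow_add h0]
  have h2 : -(n : ℝ) / 2 + (n : ℝ) / 2 = 0 := by ring
  rw [h2, Real.rpow_zero]

theorem pf_KER : T_KER := fun _ s hs => ⟨K_integrable s hs, K_integral s hs⟩

theorem pf_TFD : T_TFD := by
  intro n f i hf
  refine ⟨?_, hf.2.fderiv_apply (𝕜 := ℝ) (ee i)⟩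
  exact (hf.1.fderiv_right (m := ∞) (by simp)).clm_apply contDiff_const

theorem pf_SG : T_SG := by
  intro n s t x hs ht
  have hst : 0 < s + t := by linarith
  have hpi := Real.pi_pos
  obtain ⟨b, hb⟩ : ∃ b : ℝ, b = (s + t) / (4 * s * t) := ⟨_, rfl⟩
  have hb0 : 0 < b := by rw [hb]; positivity
  have key : ∀ y : E n, K s y * K t (x - y) =
      (4 * Real.pi * s) ^ (-(n : ℝ) / 2) * (4 * Real.pi * t) ^ (-(n : ℝ) / 2) *
        Real.exp (-(‖x‖ ^ 2 / (4 * (s + t)))) *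
        Real.exp (-(b * ‖y - (s / (s + t)) • x‖ ^ 2)) := by
    intro y
    unfold K
    have h1 : -(‖y‖ ^ 2 / (4 * s)) + -(‖x - y‖ ^ 2 / (4 * t)) =
        -(‖x‖ ^ 2 / (4 * (s + t))) + -(b * ‖y - (s / (s + t)) • x‖ ^ 2) := by
      rw [norm_sub_sq_real, norm_sub_sq_real, norm_smul, inner_smul_right, real_inner_comm y x,
        Real.norm_eq_abs, abs_of_pos (by positivity : 0 < s / (s + t)), hb]
      field_simp
      ring
    have h2 : Real.exp (-(‖y‖ ^ 2 / (4 * s))) * Real.exp (-(‖x - y‖ ^ 2 / (4 * t))) =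
        Real.exp (-(‖x‖ ^ 2 / (4 * (s + t)))) * Real.exp (-(b * ‖y - (s / (s + t)) • x‖ ^ 2)) := by
      rw [← Real.exp_add, ← Real.exp_add, h1]
    calc (4 * Real.pi * s) ^ (-(n : ℝ) / 2) * Real.exp (-(‖y‖ ^ 2 / (4 * s))) *
          ((4 * Real.pi * t) ^ (-(n : ℝ) / 2) * Real.exp (-(‖x - y‖ ^ 2 / (4 * t))))
        = (4 * Real.pi * s) ^ (-(n : ℝ) / 2) * (4 * Real.pi * t) ^ (-(n : ℝ) / 2) *
          (Real.exp (-(‖y‖ ^ 2 / (4 * s))) * Real.exp (-(‖x - y‖ ^ 2 / (4 * t)))) := by ring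
      _ = _ := by
        rw [h2]
        ring
  simp only [key]
  rw [integral_const_mul, integral_sub_right_eq_self
    (fun y : E n => Real.exp (-(b * ‖y‖ ^ 2))) ((s / (s + t)) • x), gauss_int n b hb0]
  unfold K
  have h3 : (4 * Real.pi * s) ^ (-(n : ℝ) / 2) * (4 * Real.pi * t) ^ (-(n : ℝ) / 2) *
      (Real.pi / b) ^ ((n : ℝ) / 2) = (4 * Real.pi * (s + t)) ^ (-(n : ℝ) / 2) := by
    have h4 : (Real.pi / b) ^ ((n : ℝ) / 2) = ((Real.pi / b)⁻¹) ^ (-(n : ℝ) / 2) := by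
      rw [Real.inv_rpow (by positivity), ← Real.rpow_neg (by positivity)]
      congr 1
      ring
    rw [h4, ← Real.mul_rpow (by positivity) (by positivity),
      ← Real.mul_rpow (by positivity) (by positivity)]
    congr 1
    rw [hb]
    field_simp
  calc (4 * Real.pi * s) ^ (-(n : ℝ) / 2) * (4 * Real.pi * t) ^ (-(n : ℝ) / 2) *
        Real.exp (-(‖x‖ ^ 2 / (4 * (s + t)))) * (Real.pi / b) ^ ((n : ℝ) / 2)
      = ((4 * Real.pi * s) ^ (-(n : ℝ) / 2) * (4 * Real.pi * t) ^ (-(n : ℝ) / 2) *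
        (Real.pi / b) ^ ((n : ℝ) / 2)) * Real.exp (-(‖x‖ ^ 2 / (4 * (s + t)))) := by ring
    _ = _ := by rw [h3]

theorem pf_SUP : T_SUP := by
  intro n f C s x hs _ hC
  unfold heat
  have h1 : ‖∫ y, K s y * f (x - y)‖ ≤ ∫ y : E n, K s y * C := by
    apply norm_integral_le_of_norm_le ((K_integrable s hs).mul_const C)
    filter_upwards with y
    rw [norm_mul, Real.norm_eq_abs, Real.norm_eq_abs, abs_of_pos (K_pos s hs y)]
    exact mul_le_mul_of_nonneg_left (hC _) (K_pos s hs y).le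
  rw [integral_mul_const, K_integral s hs, one_mul] at h1
  exact h1

theorem K_le {n : ℕ} (s : ℝ) (hs : 0 < s) (x : E n) :
    K s x ≤ (4 * Real.pi * s) ^ (-(n : ℝ) / 2) := by
  have hpi := Real.pi_pos
  unfold K
  have h1 : Real.exp (-(‖x‖ ^ 2 / (4 * s))) ≤ 1 := by
    rw [Real.exp_le_one_iff, neg_nonpos]
    positivity
  have h2 : 0 ≤ (4 * Real.pi * s) ^ (-(n : ℝ) / 2) := by positivity
  calc _ ≤ (4 * Real.pi * s) ^ (-(n : ℝ) / 2) * 1 := mul_le_mul_of_nonneg_left h1 h2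
    _ = _ := mul_one _

theorem pf_DEC1 : T_DEC1 := by
  intro n f s x hs hf
  have hint : Integrable f := hf.1.continuous.integrable_of_hasCompactSupport hf.2
  unfold heat
  have h1 : ‖∫ y, K s y * f (x - y)‖ ≤
      ∫ y : E n, (4 * Real.pi * s) ^ (-(n : ℝ) / 2) * |f (x - y)| := by
    apply norm_integral_le_of_norm_le ((hint.comp_sub_left x).abs.const_mul _)
    filter_upwards with y
    rw [norm_mul, Real.norm_eq_abs, Real.norm_eq_abs, abs_of_pos (K_pos s hs y)]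
    exact mul_le_mul_of_nonneg_right (K_le s hs y) (abs_nonneg _)
  rw [integral_const_mul, integral_sub_left_eq_self (fun y : E n => |f y|) volume x] at h1
  exact h1

end Pool.Agent.H68.RG
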