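import Pool.Agent.H68.RG.HL

/-!
# Convolutions with polynomially decaying kernels and the maximal function
-/

set_option autoImplicit false

namespace Pool.Agent.H68.RG

open MeasureTheory Set Metric Module
open scoped ENNReal NNReal

/-- dyadic majorant -/
private theorem dyad_maj (d : ℕ) (t : ℝ) (ht : 0 ≤ t) : ∃ j : ℕ, t < 2 ^ j ∧
    ((1 + t) ^ (d + 1))⁻¹ ≤ 2 ^ (d + 1) * ((1 / 2) ^ (d + 1)) ^ j := by
  obtain ⟨j, hj, hmin⟩ : ∃ j : ℕ, t < 2 ^ j ∧ ∀ i : ℕ, i < j → ¬ t < 2 ^ i := by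
    have hex : ∃ j : ℕ, t < 2 ^ j := pow_unbounded_of_one_lt t (by norm_num)
    classical
    exact ⟨Nat.find hex, Nat.find_spec hex, fun i hi => Nat.find_min hex hi⟩
  refine ⟨j, hj, ?_⟩
  rcases Nat.eq_zero_or_pos j with h0 | h0
  · rw [h0, pow_zero, mul_one]
    have h1 : (1 : ℝ) ≤ (1 + t) ^ (d + 1) := one_le_pow₀ (by linarith)
    have h2 : (1 : ℝ) ≤ 2 ^ (d + 1) := one_le_pow₀ (by norm_num)
    exact (inv_le_one_of_one_le₀ h1).trans h2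
  · obtain ⟨i, rfl⟩ : ∃ i, j = i + 1 := ⟨j - 1, by omega⟩
    have h1 : (2 : ℝ) ^ i ≤ t := not_lt.mp (hmin i (by omega))
    have h2 : (0 : ℝ) < 2 ^ i := by positivity
    have h3 : ((2 : ℝ) ^ i) ^ (d + 1) ≤ (1 + t) ^ (d + 1) := by
      gcongr
      linarith
    have h4 : (2 : ℝ) ^ (d + 1) * ((1 / 2) ^ (d + 1)) ^ (i + 1) = (((2 : ℝ) ^ i) ^ (d + 1))⁻¹ := by
      rw [pow_succ ((1 / 2 : ℝ) ^ (d + 1)) i, mul_comm (((1 / 2 : ℝ) ^ (d + 1)) ^ i), ← mul_assoc,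
        ← mul_pow, ← pow_mul, ← pow_mul, one_div, inv_pow, mul_comm (d + 1) i]
      norm_num
    rw [h4]
    exact inv_anti₀ (by positivity) h3

variable {E : Type*} [NormedAddCommGroup E] [MeasurableSpace E] [NormedSpace ℝ E]
  [FiniteDimensional ℝ E] [BorelSpace E] (μ : Measure E) [μ.IsAddHaarMeasure]

/-- the dyadic majorant of a mean with a polynomially decaying kernel -/
theorem poly_conv_le (d : ℕ) (g : E → ℝ≥0∞) (hg : Measurable g) (ρ : ℝ) (hρ : 0 < ρ) (y : E) :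
    ∫⁻ w, ENNReal.ofReal ((ρ ^ d)⁻¹ * ((1 + ‖y - w‖ / ρ) ^ (d + 1))⁻¹) * g w ∂μ ≤
      ∑' j : ℕ, ENNReal.ofReal ((ρ ^ d)⁻¹ * (2 ^ (d + 1) * ((1 / 2) ^ (d + 1)) ^ j)) *
        ∫⁻ w in ball y (2 ^ j * ρ), g w ∂μ := by
  obtain ⟨c, hc⟩ : ∃ c : ℕ → ℝ, ∀ j, c j = (ρ ^ d)⁻¹ * (2 ^ (d + 1) * ((1 / 2) ^ (d + 1)) ^ j) :=
    ⟨_, fun _ => rfl⟩
  simp only [← hc]
  -- pointwise
  have hpt : ∀ w, ENNReal.ofReal ((ρ ^ d)⁻¹ * ((1 + ‖y - w‖ / ρ) ^ (d + 1))⁻¹) * g w ≤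
      ∑' j : ℕ, ENNReal.ofReal (c j) * (ball y (2 ^ j * ρ)).indicator g w := by
    intro w
    obtain ⟨j, hj, hle⟩ := dyad_maj d (‖y - w‖ / ρ) (by positivity)
    have hw : w ∈ ball y (2 ^ j * ρ) := by
      rw [mem_ball, dist_comm, dist_eq_norm]
      rwa [div_lt_iff₀ hρ] at hj
    refine le_trans ?_ (ENNReal.le_tsum j)
    rw [Set.indicator_of_mem hw]
    refine mul_le_mul' (ENNReal.ofReal_le_ofReal ?_) le_rfl
    rw [hc]
    exact mul_le_mul_of_nonneg_left hle (by positivity)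
  calc ∫⁻ w, ENNReal.ofReal ((ρ ^ d)⁻¹ * ((1 + ‖y - w‖ / ρ) ^ (d + 1))⁻¹) * g w ∂μ
      ≤ ∫⁻ w, ∑' j : ℕ, ENNReal.ofReal (c j) * (ball y (2 ^ j * ρ)).indicator g w ∂μ :=
        lintegral_mono hpt
    _ = ∑' j : ℕ, ENNReal.ofReal (c j) * ∫⁻ w in ball y (2 ^ j * ρ), g w ∂μ := by
        rw [lintegral_tsum fun j =>
          ((hg.indicator measurableSet_ball).const_mul _).aemeasurable]
        congr 1
        funext j
        rw [lintegral_const_mul _ (hg.indicator measurableSet_ball),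
          lintegral_indicator measurableSet_ball]

/-- a mean with the kernel `ρ^(-d) (1 + |z| / ρ)^(-(d+1))`, `d = dim E`, is bounded by the maximal
function at all points at distance less than `ρ` -/
theorem poly_conv (g : E → ℝ≥0∞) (hg : Measurable g) (ρ : ℝ) (hρ : 0 < ρ) (x y : E)
    (hxy : dist x y < ρ) :
    ∫⁻ w, ENNReal.ofReal ((ρ ^ finrank ℝ E)⁻¹ * ((1 + ‖y - w‖ / ρ) ^ (finrank ℝ E + 1))⁻¹) *
      g w ∂μ ≤ ENNReal.ofReal (2 ^ (finrank ℝ E + 2)) * μ (ball 0 1) * Mx μ g x := by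
  obtain ⟨d, hd⟩ : ∃ d, d = finrank ℝ E := ⟨_, rfl⟩
  rw [← hd]
  obtain ⟨c, hc⟩ : ∃ c : ℕ → ℝ, ∀ j, c j = (ρ ^ d)⁻¹ * (2 ^ (d + 1) * ((1 / 2) ^ (d + 1)) ^ j) :=
    ⟨_, fun _ => rfl⟩
  have hc0 : ∀ j, 0 ≤ c j := fun j => by rw [hc]; positivity
  calc ∫⁻ w, ENNReal.ofReal ((ρ ^ d)⁻¹ * ((1 + ‖y - w‖ / ρ) ^ (d + 1))⁻¹) * g w ∂μ
      ≤ ∑' j : ℕ, ENNReal.ofReal (c j) * ∫⁻ w in ball y (2 ^ j * ρ), g w ∂μ := by
        simp only [hc]
        exact poly_conv_le μ d g hg ρ hρ y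
    _ ≤ ∑' j : ℕ, ENNReal.ofReal (2 ^ (d + 1) * (1 / 2) ^ j) * (μ (ball 0 1) * Mx μ g x) := by
        refine ENNReal.tsum_le_tsum fun j => ?_
        have hr : 0 < (2 : ℝ) ^ j * ρ := by positivity
        have hx : x ∈ ball y (2 ^ j * ρ) := by
          rw [mem_ball]
          have : (1 : ℝ) ≤ 2 ^ j := one_le_pow₀ (by norm_num)
          nlinarith
        have h1 := le_Mx μ g hx
        have h4 : μ (ball y (2 ^ j * ρ)) ≠ 0 := (measure_ball_pos μ y hr).ne'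
        have h5 : μ (ball y (2 ^ j * ρ)) ≠ ⊤ := measure_ball_lt_top.ne
        have h2 : ∫⁻ w in ball y (2 ^ j * ρ), g w ∂μ ≤ μ (ball y (2 ^ j * ρ)) * Mx μ g x := by
          calc ∫⁻ w in ball y (2 ^ j * ρ), g w ∂μ
              = μ (ball y (2 ^ j * ρ)) *
                ((μ (ball y (2 ^ j * ρ)))⁻¹ * ∫⁻ w in ball y (2 ^ j * ρ), g w ∂μ) := by
                rw [← mul_assoc, ENNReal.mul_inv_cancel h4 h5, one_mul]
            _ ≤ _ := mul_le_mul' le_rfl h1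
        refine (mul_le_mul' le_rfl h2).trans (le_of_eq ?_)
        rw [Measure.addHaar_ball_of_pos μ y hr, ← hd, ← mul_assoc, ← mul_assoc, ← mul_assoc,
          ← ENNReal.ofReal_mul (hc0 j)]
        congr 3
        rw [hc, mul_pow]
        have h6 : ((1 / 2 : ℝ) ^ (d + 1)) ^ j * (2 ^ j) ^ d = (1 / 2) ^ j := by
          rw [← pow_mul, ← pow_mul, add_mul, one_mul, pow_add, mul_right_comm, mul_comm j d,
            ← mul_pow]
          norm_num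
        have h7 : (ρ ^ d)⁻¹ * ρ ^ d = 1 := inv_mul_cancel₀ (by positivity)
        calc (ρ ^ d)⁻¹ * (2 ^ (d + 1) * ((1 / 2) ^ (d + 1)) ^ j) * ((2 ^ j) ^ d * ρ ^ d)
            = 2 ^ (d + 1) * (((1 / 2 : ℝ) ^ (d + 1)) ^ j * (2 ^ j) ^ d) * ((ρ ^ d)⁻¹ * ρ ^ d) := by
              ring
          _ = _ := by rw [h6, h7, mul_one]
    _ = _ := by
        rw [ENNReal.tsum_mul_right, mul_assoc]
        congr 1
        rw [← ENNReal.ofReal_tsum_of_nonneg (fun j => by positivity)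
          ((summable_geometric_two).mul_left _), tsum_mul_left, tsum_geometric_two]
        congr 1

end Pool.Agent.H68.RG
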