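import Pool.Agent.H68.RG.K2A
import Pool.Agent.H68.RG.PC

/-!
# The Gaussian means of a function with a Morrey bound, and of an arbitrary function
-/

set_option autoImplicit false

namespace Pool.Agent.H68.RG

open MeasureTheory Set Filter Topology Module Metric
open Pool.Agent.H31.TRI
open scoped ContDiff ENNReal

/-- a power times a Gaussian -/
theorem pow_gauss (m : ℕ) (t : ℝ) (ht : 0 ≤ t) :
    Real.exp (-(t ^ 2 / 4)) * (1 + t) ^ m ≤ Real.exp (1 / 4) * (8 ^ m * m.factorial) := by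
  obtain ⟨u, hu⟩ : ∃ u, u = (1 + t) ^ 2 / 8 := ⟨_, rfl⟩
  have hu0 : 0 ≤ u := by rw [hu]; positivity
  have h1 := Real.pow_div_factorial_le_exp u hu0 m
  have hm : (0 : ℝ) < m.factorial := by exact_mod_cast Nat.factorial_pos m
  rw [div_le_iff₀ hm] at h1
  have h2 : Real.exp (-(t ^ 2 / 4)) ≤ Real.exp (1 / 4) * Real.exp (-u) := by
    rw [← Real.exp_add]
    apply Real.exp_le_exp.mpr
    rw [hu]
    nlinarith [sq_nonneg (1 - t)]
  have h3 : (1 + t) ^ m ≤ 8 ^ m * u ^ m := by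
    have h4 : (8 : ℝ) ^ m * u ^ m = ((1 + t) ^ 2) ^ m := by
      rw [← mul_pow, hu]
      congr 1
      ring
    rw [h4]
    apply pow_le_pow_left₀ (by positivity)
    nlinarith
  have h5 : Real.exp (-u) * Real.exp u = 1 := by
    rw [← Real.exp_add]
    simp
  calc Real.exp (-(t ^ 2 / 4)) * (1 + t) ^ m
      ≤ (Real.exp (1 / 4) * Real.exp (-u)) * (8 ^ m * u ^ m) := by gcongr
    _ ≤ (Real.exp (1 / 4) * Real.exp (-u)) * (8 ^ m * (Real.exp u * m.factorial)) := by gcongr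
    _ = Real.exp (1 / 4) * (8 ^ m * m.factorial) * (Real.exp (-u) * Real.exp u) := by ring
    _ = _ := by rw [h5, mul_one]

/-- the constant of the kernel bound -/
noncomputable def cK (n : ℕ) : ℝ :=
  (4 * Real.pi) ^ (-(n : ℝ) / 2) * (Real.exp (1 / 4) * (8 ^ (n + 1) * (n + 1).factorial))

theorem cK_pos (n : ℕ) : 0 < cK n := by
  have := Real.pi_pos
  have : 0 < (n + 1).factorial := Nat.factorial_pos _
  unfold cK
  positivity

/-- the kernel has the polynomial majorant of scale `√s` -/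
theorem K_poly {n : ℕ} (s : ℝ) (hs : 0 < s) (z : E n) :
    K s z ≤ cK n * ((√s ^ n)⁻¹ * ((1 + ‖z‖ / √s) ^ (n + 1))⁻¹) := by
  have hpi := Real.pi_pos
  have hρ : 0 < √s := Real.sqrt_pos.mpr hs
  have hρ2 : √s ^ 2 = s := Real.sq_sqrt hs.le
  obtain ⟨t, ht⟩ : ∃ t, t = ‖z‖ / √s := ⟨_, rfl⟩
  have ht0 : 0 ≤ t := by rw [ht]; positivity
  have h1 := pow_gauss (n + 1) t ht0
  have h2 : ‖z‖ ^ 2 / (4 * s) = t ^ 2 / 4 := by
    rw [ht, div_pow, hρ2]
    field_simp
  have h3 : (4 * Real.pi * s) ^ (-(n : ℝ) / 2) =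
      (4 * Real.pi) ^ (-(n : ℝ) / 2) * (√s ^ n)⁻¹ := by
    rw [Real.mul_rpow (by positivity) hs.le]
    congr 1
    rw [neg_div, Real.rpow_neg hs.le, Real.sqrt_eq_rpow, ← Real.rpow_natCast, ← Real.rpow_mul hs.le]
    congr 2
    ring
  have h4 : 0 < (1 + t) ^ (n + 1) := by positivity
  have h5 : Real.exp (-(t ^ 2 / 4)) ≤
      (Real.exp (1 / 4) * (8 ^ (n + 1) * (n + 1).factorial)) * ((1 + t) ^ (n + 1))⁻¹ := by
    rw [← div_eq_mul_inv, le_div_iff₀ h4]
    exact h1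
  unfold K cK
  rw [h2, h3, ← ht]
  have h6 : 0 ≤ (4 * Real.pi) ^ (-(n : ℝ) / 2) * (√s ^ n)⁻¹ := by positivity
  calc (4 * Real.pi) ^ (-(n : ℝ) / 2) * (√s ^ n)⁻¹ * Real.exp (-(t ^ 2 / 4))
      ≤ (4 * Real.pi) ^ (-(n : ℝ) / 2) * (√s ^ n)⁻¹ *
        ((Real.exp (1 / 4) * (8 ^ (n + 1) * (n + 1).factorial)) * ((1 + t) ^ (n + 1))⁻¹) :=
        mul_le_mul_of_nonneg_left h5 h6
    _ = _ := by ring

/-- the Gaussian mean is bounded by the maximal function -/
theorem K_Mx {n : ℕ} (g : E n → ℝ≥0∞) (hg : Measurable g) (s : ℝ) (hs : 0 < s) (x y : E n)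
    (hxy : dist x y < √s) :
    ∫⁻ w, ENNReal.ofReal (K s (y - w)) * g w ≤
      ENNReal.ofReal (cK n) * (ENNReal.ofReal (2 ^ (n + 2)) * volume (ball (0 : E n) 1) *
        Mx volume g x) := by
  have hρ : 0 < √s := Real.sqrt_pos.mpr hs
  have h1 := poly_conv volume g hg (√s) hρ x y hxy
  rw [finrank_euclideanSpace_fin] at h1
  calc ∫⁻ w, ENNReal.ofReal (K s (y - w)) * g w
      ≤ ∫⁻ w, ENNReal.ofReal (cK n) *
        (ENNReal.ofReal ((√s ^ n)⁻¹ * ((1 + ‖y - w‖ / √s) ^ (n + 1))⁻¹) * g w) := by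
        refine lintegral_mono fun w => ?_
        rw [← mul_assoc, ← ENNReal.ofReal_mul (cK_pos n).le]
        exact mul_le_mul' (ENNReal.ofReal_le_ofReal (K_poly s hs _)) le_rfl
    _ = ENNReal.ofReal (cK n) * ∫⁻ w,
        ENNReal.ofReal ((√s ^ n)⁻¹ * ((1 + ‖y - w‖ / √s) ^ (n + 1))⁻¹) * g w :=
        lintegral_const_mul' _ _ ENNReal.ofReal_ne_top
    _ ≤ _ := mul_le_mul' le_rfl h1

/-- Gaussian means under a Morrey bound, for nonnegative functions with values in `[0, ∞]` -/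
theorem K_morrey_enn {n : ℕ} (hn : 1 ≤ n) (g : E n → ℝ≥0∞) (hg : Measurable g) (M : ℝ)
    (hM : 0 ≤ M) (y : E n) (hgM : ∀ r : ℝ, 0 < r →
      ∫⁻ w in ball y r, g w ≤ ENNReal.ofReal (M * r ^ (n - 1))) (s : ℝ) (hs : 0 < s) :
    ∫⁻ w, ENNReal.ofReal (K s (y - w)) * g w ≤
      ENNReal.ofReal (cK n * 2 ^ (n + 2) * M / √s) := by
  have hρ : 0 < √s := Real.sqrt_pos.mpr hs
  obtain ⟨d, rfl⟩ : ∃ d, n = d + 1 := ⟨n - 1, by omega⟩
  have h1 := poly_conv_le (E := E (d + 1)) volume (d + 1) g hg (√s) hρ y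
  have h2 : ∑' j : ℕ, ENNReal.ofReal ((√s ^ (d + 1))⁻¹ *
      (2 ^ (d + 1 + 1) * ((1 / 2) ^ (d + 1 + 1)) ^ j)) * ∫⁻ w in ball y (2 ^ j * √s), g w ≤
      ENNReal.ofReal (2 ^ (d + 3) * M / √s) := by
    calc ∑' j : ℕ, ENNReal.ofReal ((√s ^ (d + 1))⁻¹ *
        (2 ^ (d + 1 + 1) * ((1 / 2) ^ (d + 1 + 1)) ^ j)) * ∫⁻ w in ball y (2 ^ j * √s), g w
        ≤ ∑' j : ℕ, ENNReal.ofReal (2 ^ (d + 2) * M / √s * (1 / 2) ^ j) := by
          refine ENNReal.tsum_le_tsum fun j => ?_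
          have hr : 0 < (2 : ℝ) ^ j * √s := by positivity
          refine (mul_le_mul' le_rfl (hgM _ hr)).trans ?_
          rw [← ENNReal.ofReal_mul (by positivity)]
          apply ENNReal.ofReal_le_ofReal
          have h3 : d + 1 - 1 = d := by omega
          rw [h3, mul_pow]
          have h4 : ((1 / 2 : ℝ) ^ (d + 1 + 1)) ^ j * (2 ^ j) ^ d = ((1 / 2) ^ j) * (1 / 2) ^ j := by
            rw [← pow_mul, ← pow_mul, add_mul, add_mul, one_mul, pow_add, pow_add, mul_comm j d]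
            have h5 : (1 / 2 : ℝ) ^ (d * j) * 2 ^ (d * j) = 1 := by
              rw [← mul_pow]
              norm_num
            calc (1 / 2 : ℝ) ^ (d * j) * (1 / 2) ^ j * (1 / 2) ^ j * 2 ^ (d * j)
                = ((1 / 2 : ℝ) ^ (d * j) * 2 ^ (d * j)) * ((1 / 2) ^ j * (1 / 2) ^ j) := by ring
              _ = _ := by rw [h5, one_mul]
          have h6 : (√s ^ (d + 1))⁻¹ * √s ^ d = (√s)⁻¹ := by
            rw [pow_succ]
            field_simp
          have h7 : (1 / 2 : ℝ) ^ j ≤ 1 := pow_le_one₀ (by norm_num) (by norm_num)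
          calc (√s ^ (d + 1))⁻¹ * (2 ^ (d + 1 + 1) * ((1 / 2) ^ (d + 1 + 1)) ^ j) *
                (M * ((2 ^ j) ^ d * √s ^ d))
              = 2 ^ (d + 2) * M * ((√s ^ (d + 1))⁻¹ * √s ^ d) *
                (((1 / 2 : ℝ) ^ (d + 1 + 1)) ^ j * (2 ^ j) ^ d) := by ring
            _ = 2 ^ (d + 2) * M * (√s)⁻¹ * (((1 / 2) ^ j) * (1 / 2) ^ j) := by rw [h4, h6]
            _ ≤ 2 ^ (d + 2) * M * (√s)⁻¹ * (((1 / 2) ^ j) * 1) := by gcongr
            _ = _ := by ring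
      _ = _ := by
          rw [← ENNReal.ofReal_tsum_of_nonneg (fun j => by positivity)
            ((summable_geometric_two).mul_left _), tsum_mul_left, tsum_geometric_two]
          congr 1
          ring
  calc ∫⁻ w, ENNReal.ofReal (K s (y - w)) * g w
      ≤ ∫⁻ w, ENNReal.ofReal (cK (d + 1)) *
        (ENNReal.ofReal ((√s ^ (d + 1))⁻¹ * ((1 + ‖y - w‖ / √s) ^ (d + 1 + 1))⁻¹) * g w) := by
        refine lintegral_mono fun w => ?_
        rw [← mul_assoc, ← ENNReal.ofReal_mul (cK_pos _).le]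
        exact mul_le_mul' (ENNReal.ofReal_le_ofReal (K_poly s hs _)) le_rfl
    _ = ENNReal.ofReal (cK (d + 1)) * ∫⁻ w,
        ENNReal.ofReal ((√s ^ (d + 1))⁻¹ * ((1 + ‖y - w‖ / √s) ^ (d + 1 + 1))⁻¹) * g w :=
        lintegral_const_mul' _ _ ENNReal.ofReal_ne_top
    _ ≤ ENNReal.ofReal (cK (d + 1)) * ENNReal.ofReal (2 ^ (d + 3) * M / √s) :=
        mul_le_mul' le_rfl (h1.trans h2)
    _ = _ := by
        rw [← ENNReal.ofReal_mul (cK_pos _).le]
        congr 1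
        ring

/-- Gaussian means under a Morrey bound -/
theorem K_morrey {n : ℕ} (hn : 1 ≤ n) (h : E n → ℝ) (hint : Integrable h) (hc : Continuous h)
    (h0 : ∀ x, 0 ≤ h x) (M : ℝ) (hM : 0 ≤ M) (x : E n)
    (hhM : ∀ r : ℝ, 0 < r → ∫ w in ball x r, h w ≤ M * r ^ (n - 1)) (s : ℝ) (hs : 0 < s) :
    heat h s x ≤ cK n * 2 ^ (n + 2) * M / √s := by
  have h1 := K_morrey_enn hn (fun w => ENNReal.ofReal (h w)) hc.measurable.ennreal_ofReal M hM x
    (fun r hr => by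
      rw [← ofReal_integral_eq_lintegral_ofReal hint.integrableOn
        (Filter.Eventually.of_forall fun w => h0 w)]
      exact ENNReal.ofReal_le_ofReal (hhM r hr)) s hs
  have h2 : heat h s x = ∫ w, K s (x - w) * h w := by
    unfold heat
    have := integral_sub_left_eq_self (fun w => K s (x - w) * h w) volume x
    simp only [sub_sub_cancel] at this
    exact this
  rw [h2]
  have h3 : ∫ w, K s (x - w) * h w = (∫⁻ w, ENNReal.ofReal (K s (x - w) * h w)).toReal := by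
    rw [integral_eq_lintegral_of_nonneg_ae]
    · exact Filter.Eventually.of_forall fun w => mul_nonneg (K_pos s hs _).le (h0 w)
    · have : Continuous (K s : E n → ℝ) := by
        unfold K
        fun_prop
      exact ((this.comp (continuous_const.sub continuous_id)).mul hc).aestronglyMeasurable
  rw [h3]
  have h4 : ∫⁻ w, ENNReal.ofReal (K s (x - w) * h w) =
      ∫⁻ w, ENNReal.ofReal (K s (x - w)) * ENNReal.ofReal (h w) := by
    apply lintegral_congr
    intro w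
    rw [ENNReal.ofReal_mul (K_pos s hs _).le]
  rw [h4]
  have h5 : 0 ≤ cK n * 2 ^ (n + 2) * M / √s := by
    have := cK_pos n
    positivity
  exact ENNReal.toReal_le_of_le_ofReal h5 h1

end Pool.Agent.H68.RG
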